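import Mathlib
import Pool.Agent.Results.MP_6b55e5_an.RogersQ2
import Pool.Agent.Run7.h542.BS.OnePer

set_option autoImplicit false

/-!
# Rogers' first question: the answer is negative

There is a Besicovitch set, the union of exactly one closed unit segment in each direction, with
compact null closure, none of whose strip coverings has total width below `1/120`.  The definitions
`Plane`, `IsStrip`, `IsBesicovitch`, `PropertyS` are those of the starting file `RogersQ2` (which
answers the second question).
-/

namespace Pool.Agent.Results.MP_6b55e5_an.RogersQ1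

open MeasureTheory Set
open Pool.Agent.Results.MP_6b55e5_an.RogersQ2
open Pool.Agent.Run7.h542.BS

/-- One can choose one closed unit segment `I e` in each direction `e` (so `I (-e) = I e`) such
that the union of the segments is a Besicovitch set (bounded, of measure zero, with a closed unit
segment in every direction), so is its closure, and every countable strip covering of the union has
total width at least `1/120`; in particular not every Besicovitch set has property (S). -/
theorem result :
    (∃ I : Plane → Set Plane,
      (∀ e : Plane, ‖e‖ = 1 → (∃ x, I e = segment ℝ x (x + e)) ∧ I (-e) = I e) ∧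
      IsBesicovitch (⋃ e ∈ {e : Plane | ‖e‖ = 1}, I e) ∧
      IsBesicovitch (closure (⋃ e ∈ {e : Plane | ‖e‖ = 1}, I e)) ∧
      ∀ (ι : Type) (_ : Countable ι) (S : ι → Set Plane) (w : ι → ℝ),
        (∀ i, IsStrip (S i) (w i)) → (⋃ e ∈ {e : Plane | ‖e‖ = 1}, I e) ⊆ ⋃ i, S i →
        Summable w → 1 / 120 ≤ ∑' i, w i) ∧
    ¬ ∀ E : Set Plane, IsBesicovitch E → PropertyS E := by
  obtain ⟨I, hI, hB, hB', hN⟩ := one_per
  refine ⟨⟨I, hI, hB, hB', fun ι hι S w hS hcov hw => NN_strips S w hS (hN.trans hcov) hw⟩,
    fun hall => ?_⟩
  obtain ⟨ι, hι, S, w, h1, h2, h3, h4⟩ := hall _ hB (1 / 120) (by norm_num)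
  exact absurd (NN_strips S w h1 (hN.trans h2) h3) (not_le.2 h4)

end Pool.Agent.Results.MP_6b55e5_an.RogersQ1
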